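import Pool.Agent.H29.FX.Targets

/-!
# Triples with few exponents: a derivative which vanishes with a non-vanishing first derivative
-/

set_option autoImplicit false

open Finset MvPolynomial

namespace Pool.Agent.H97.TFX

open Pool.Agent.H29.FX

theorem der_const {n : ℕ} (G : Pl n) (h : ∀ v, pderiv v G = 0) : G = C (coeff 0 G) := by
  classical
  ext m
  rw [coeff_C]
  by_cases hm : 0 = m
  · rw [if_pos hm, hm]
  · rw [if_neg hm]
    obtain ⟨v, hv⟩ : ∃ v, m v ≠ 0 := by
      by_contra hcon
      push Not at hcon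
      exact hm (Finsupp.ext fun v => (hcon v).symm)
    have h1 := congrArg (coeff (m - Finsupp.single v 1)) (h v)
    rw [coeff_pderiv, coeff_zero, tsub_add_cancel_of_le
      (Finsupp.single_le_iff.2 (Nat.one_le_iff_ne_zero.2 hv))] at h1
    rcases mul_eq_zero.1 h1 with h2 | h2
    · exact h2
    · exfalso
      have h3 : (0 : ℤ) ≤ (((m - Finsupp.single v 1 : Fin n →₀ ℕ) v : ℕ) : ℤ) := Int.natCast_nonneg _
      omega

theorem der_deg {n d : ℕ} (G : Pl n) (v : Fin n) (h : G.totalDegree ≤ d + 1) :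
    (pderiv v G).totalDegree ≤ d := by
  classical
  refine Finset.sup_le fun m hm => ?_
  rw [mem_support_iff, coeff_pderiv] at hm
  have h1 : m + Finsupp.single v 1 ∈ G.support := mem_support_iff.2 (left_ne_zero_of_mul hm)
  have h2 := (le_totalDegree h1).trans h
  rw [Finsupp.sum_add_index' (fun _ => rfl) (fun _ _ _ => rfl),
    Finsupp.sum_single_index rfl] at h2
  omega

theorem der_vars {n : ℕ} (h : Pl n) (v : Fin n) : (pderiv v h).vars ⊆ h.vars := by
  classical
  intro w hw
  rw [mem_vars_iff_mem_support] at hw ⊢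
  obtain ⟨m, hm, hwm⟩ := hw
  rw [mem_support_iff, coeff_pderiv] at hm
  refine ⟨m + Finsupp.single v 1, mem_support_iff.2 (left_ne_zero_of_mul hm), ?_⟩
  rw [Finsupp.mem_support_iff] at hwm ⊢
  rw [Finsupp.add_apply]
  omega

theorem der_ex {n : ℕ} (x : Fin n → ℤ) : ∀ (d : ℕ) (G : Pl n), G ≠ 0 → G.totalDegree ≤ d →
    ∃ l : List (Fin n), l.length ≤ d ∧ eval x (pl l G) ≠ 0 := by
  intro d
  induction d with
  | zero =>
    intro G hG hd
    refine ⟨[], le_rfl, ?_⟩
    have h1 := (totalDegree_eq_zero_iff_eq_C).1 (Nat.le_zero.1 hd)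
    show eval x G ≠ 0
    intro h
    rw [h1, eval_C] at h
    rw [h, C_0] at h1
    exact hG h1
  | succ d ih =>
    intro G hG hd
    by_cases hx : eval x G = 0
    · obtain ⟨v, hv⟩ : ∃ v, pderiv v G ≠ 0 := by
        by_contra hcon
        push Not at hcon
        have h1 := der_const G hcon
        rw [h1, eval_C] at hx
        rw [hx, C_0] at h1
        exact hG h1
      obtain ⟨l, hl, hlx⟩ := ih (pderiv v G) hv (der_deg G v hd)
      refine ⟨l ++ [v], ?_, ?_⟩
      · rw [List.length_append, List.length_singleton]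
        omega
      · show eval x (pl (l ++ [v]) G) ≠ 0
        have : pl (l ++ [v]) G = pl l (pderiv v G) := by
          unfold pl
          rw [List.foldr_append]
          rfl
        rwa [this]
    · exact ⟨[], Nat.zero_le _, hx⟩

theorem der_pl_vars {n : ℕ} (G : Pl n) (l : List (Fin n)) : (pl l G).vars ⊆ G.vars := by
  induction l with
  | nil => exact Finset.Subset.refl _
  | cons i l ih => exact (der_vars (pl l G) i).trans ih

theorem der_pl_nm (hN : T_NRM) {n : ℕ} (G : Pl n) (l : List (Fin n)) :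
    (pl l G).totalDegree ≤ G.totalDegree ∧ nm (pl l G) ≤ (G.totalDegree : ℝ) ^ l.length * nm G := by
  obtain ⟨h0, -, -, -, -, -, h1, -⟩ := hN n
  induction l with
  | nil =>
    refine ⟨le_rfl, ?_⟩
    show nm G ≤ (G.totalDegree : ℝ) ^ 0 * nm G
    rw [pow_zero, one_mul]
  | cons i l ih =>
    have h2 := h1 i (pl l G)
    refine ⟨h2.2.trans ih.1, ?_⟩
    show nm (pderiv i (pl l G)) ≤ (G.totalDegree : ℝ) ^ (l.length + 1) * nm G
    calc nm (pderiv i (pl l G)) ≤ (pl l G).totalDegree * nm (pl l G) := h2.1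
      _ ≤ (G.totalDegree : ℝ) * ((G.totalDegree : ℝ) ^ l.length * nm G) := by
        refine mul_le_mul ?_ ih.2 (h0 _) (Nat.cast_nonneg _)
        exact_mod_cast ih.1
      _ = (G.totalDegree : ℝ) ^ (l.length + 1) * nm G := by ring

theorem pf_DER (hNRM : T_NRM) : T_DER := by
  classical
  intro n B Y G x hY hG hC hx
  have h0 := (hNRM n).1
  obtain ⟨l0, hl0, hl0x⟩ := der_ex x G.totalDegree G hG le_rfl
  have hex : ∃ k : ℕ, ∃ l : List (Fin n), l.length = k ∧ eval x (pl l G) ≠ 0 :=
    ⟨_, l0, rfl, hl0x⟩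
  obtain ⟨l, hl, hlx⟩ := Nat.find_spec hex
  have hmin : ∀ l' : List (Fin n), l'.length < l.length → eval x (pl l' G) = 0 := by
    intro l' hl'
    by_contra hcon
    rw [hl] at hl'
    exact Nat.find_min hex hl' ⟨l', rfl, hcon⟩
  have hlen : l.length ≤ B := by
    have h1 : l.length ≤ l0.length := by
      by_contra hcon
      exact hl0x (hmin l0 (not_le.1 hcon))
    exact h1.trans (hl0.trans hC.deg)
  rcases l with _ | ⟨i, l'⟩
  · exact absurd hx hlx
  rw [List.length_cons] at hlen
  have hlt : l'.length < B := hlen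
  have hl'0 : eval x (pl l' G) = 0 := hmin l' (by rw [List.length_cons]; omega)
  have hi0 : eval x (pderiv i (pl l' G)) ≠ 0 := hlx
  have htake : (List.ofFn (fun k : Fin B => l'.getD k i)).take l'.length = l' := by
    refine List.ext_getElem ?_ fun k h1 h2 => ?_
    · rw [List.length_take, List.length_ofFn]
      omega
    · rw [List.getElem_take, List.getElem_ofFn]
      exact List.getD_eq_getElem l' i h2
  refine ⟨fun k => l'.getD k i, ⟨l'.length, by omega⟩, i, ?_, ?_, ?_, ?_, ?_⟩
  · show eval x (pl ((List.ofFn (fun k : Fin B => l'.getD k i)).take l'.length) G) = 0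
    rw [htake]
    exact hl'0
  · show eval x (pderiv i (pl ((List.ofFn (fun k : Fin B => l'.getD k i)).take l'.length) G)) ≠ 0
    rw [htake]
    exact hi0
  · by_contra hcon
    apply hi0
    rw [pderiv_eq_zero_of_notMem_vars (fun h => hcon (der_pl_vars G l' h)), map_zero]
  · show (pl ((List.ofFn (fun k : Fin B => l'.getD k i)).take l'.length) G).vars ⊆ G.vars
    rw [htake]
    exact der_pl_vars G l'
  · show Cx Y (B + B * B) (pl ((List.ofFn (fun k : Fin B => l'.getD k i)).take l'.length) G)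
    rw [htake]
    obtain ⟨h1, h2⟩ := der_pl_nm hNRM G l'
    refine ⟨(h1.trans hC.deg).trans (Nat.le_add_right _ _), h2.trans ?_⟩
    have hB : (B : ℝ) ≤ Y ^ B := by
      have h3 : (B : ℝ) ≤ 2 ^ B := by
        exact_mod_cast (Nat.lt_two_pow_self (n := B)).le
      exact h3.trans (pow_le_pow_left₀ (by norm_num) hY B)
    have hYB : 1 ≤ Y ^ B := one_le_pow₀ (by linarith)
    have h4 : (G.totalDegree : ℝ) ^ l'.length ≤ Y ^ (B * B) := by
      calc (G.totalDegree : ℝ) ^ l'.length ≤ (B : ℝ) ^ l'.length :=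
            pow_le_pow_left₀ (Nat.cast_nonneg _) (by exact_mod_cast hC.deg) _
        _ ≤ (Y ^ B) ^ l'.length := pow_le_pow_left₀ (Nat.cast_nonneg _) hB _
        _ ≤ (Y ^ B) ^ B := pow_le_pow_right₀ hYB hlt.le
        _ = Y ^ (B * B) := by rw [← pow_mul]
    calc (G.totalDegree : ℝ) ^ l'.length * nm G ≤ Y ^ (B * B) * Y ^ B :=
          mul_le_mul h4 hC.le (h0 _) (by positivity)
      _ = Y ^ (B + B * B) := by rw [← pow_add, add_comm]

end Pool.Agent.H97.TFX
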