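import Pool.Agent.H29.FX.Targets

/-!
# Triples with few exponents: ordered words, basic rules
-/

set_option autoImplicit false

open Finset MvPolynomial

namespace Pool.Agent.H97.TFX

open Pool.Agent.H29.FX

/-- the ordered word along a list -/
noncomputable def dwbW {n : ℕ} (D : Fin n → Dr n) (α : Fin n → ℕ) (l : List (Fin n)) (f : Pl n) :
    Pl n := l.foldr (fun i h => (fun g => D i g)^[α i] h) f

theorem dwb_zero {n : ℕ} (D : Fin n → Dr n) (α : Fin n → ℕ) (l : List (Fin n)) (f : Pl n)
    (h : ∀ v ∈ l, α v = 0) : dwbW D α l f = f := by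
  induction l with
  | nil => rfl
  | cons i l ih =>
    show (fun g => D i g)^[α i] (dwbW D α l f) = f
    rw [h i List.mem_cons_self, Function.iterate_zero, id, ih fun v hv => h v
      (List.mem_cons_of_mem i hv)]

theorem dwb_congr {n : ℕ} (D : Fin n → Dr n) (α β : Fin n → ℕ) (l : List (Fin n)) (f : Pl n)
    (h : ∀ v ∈ l, α v = β v) : dwbW D α l f = dwbW D β l f := by
  induction l with
  | nil => rfl
  | cons i l ih =>
    show (fun g => D i g)^[α i] (dwbW D α l f) = (fun g => D i g)^[β i] (dwbW D β l f)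
    rw [h i List.mem_cons_self, ih fun v hv => h v (List.mem_cons_of_mem i hv)]

theorem dwb_it_add {n : ℕ} (D : Dr n) (k : ℕ) (f g : Pl n) :
    (fun g => D g)^[k] (f + g) = (fun g => D g)^[k] f + (fun g => D g)^[k] g := by
  induction k with
  | zero => rfl
  | succ k ih => rw [Function.iterate_succ_apply', Function.iterate_succ_apply',
      Function.iterate_succ_apply', ih, map_add]

theorem dwb_it_sub {n : ℕ} (D : Dr n) (k : ℕ) (f g : Pl n) :
    (fun g => D g)^[k] (f - g) = (fun g => D g)^[k] f - (fun g => D g)^[k] g := by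
  induction k with
  | zero => rfl
  | succ k ih => rw [Function.iterate_succ_apply', Function.iterate_succ_apply',
      Function.iterate_succ_apply', ih, map_sub]

theorem dwb_add {n : ℕ} (D : Fin n → Dr n) (α : Fin n → ℕ) (l : List (Fin n)) (f g : Pl n) :
    dwbW D α l (f + g) = dwbW D α l f + dwbW D α l g := by
  induction l with
  | nil => rfl
  | cons i l ih =>
    show (fun g => D i g)^[α i] (dwbW D α l (f + g)) =
      (fun g => D i g)^[α i] (dwbW D α l f) + (fun g => D i g)^[α i] (dwbW D α l g)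
    rw [ih, dwb_it_add]

theorem dwb_sub {n : ℕ} (D : Fin n → Dr n) (α : Fin n → ℕ) (l : List (Fin n)) (f g : Pl n) :
    dwbW D α l (f - g) = dwbW D α l f - dwbW D α l g := by
  induction l with
  | nil => rfl
  | cons i l ih =>
    show (fun g => D i g)^[α i] (dwbW D α l (f - g)) =
      (fun g => D i g)^[α i] (dwbW D α l f) - (fun g => D i g)^[α i] (dwbW D α l g)
    rw [ih, dwb_it_sub]

theorem dwb_app {n : ℕ} (D : Fin n → Dr n) (α : Fin n → ℕ) (l₁ l₂ : List (Fin n)) (i : Fin n)
    (f : Pl n) : dwbW D α (l₁ ++ i :: l₂) f =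
      dwbW D α l₁ ((fun g => D i g)^[α i] (dwbW D α l₂ f)) := by
  unfold dwbW
  rw [List.foldr_append, List.foldr_cons]

theorem pf_DWB : T_DWB := by
  intro n D
  have hw : ∀ α f, dw D α f = dwbW D α (List.finRange n) f := fun _ _ => rfl
  have hsp : ∀ i : Fin n, ∃ l₁ l₂ : List (Fin n), List.finRange n = l₁ ++ i :: l₂ ∧
      (∀ v ∈ l₁, v < i) ∧ ∀ v ∈ l₂, i < v := by
    intro i
    obtain ⟨l₁, l₂, h⟩ := List.append_of_mem (List.mem_finRange i)
    have h1 := List.pairwise_lt_finRange n
    rw [h, List.pairwise_append] at h1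
    refine ⟨l₁, l₂, h, fun v hv => h1.2.2 v hv i List.mem_cons_self, fun v hv => ?_⟩
    exact (List.pairwise_cons.1 h1.2.1).1 v hv
  have hsame : ∀ (β : Fin n → ℕ) (i v : Fin n), v ≠ i → (β + Pi.single i 1 : Fin n → ℕ) v = β v := by
    intro β i v hv
    rw [Pi.add_apply, Pi.single_eq_of_ne hv, add_zero]
  have hself : ∀ (β : Fin n → ℕ) (i : Fin n), (β + Pi.single i 1 : Fin n → ℕ) i = β i + 1 := by
    intro β i
    rw [Pi.add_apply, Pi.single_eq_same]
  refine ⟨fun f => ?_, fun α f g => ?_, fun α f g => ?_, fun β i f hβ => ?_, fun β i f hβ => ?_⟩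
  · rw [hw]
    exact dwb_zero D 0 _ f fun _ _ => rfl
  · rw [hw, hw, hw]
    exact dwb_add D α _ f g
  · rw [hw, hw, hw]
    exact dwb_sub D α _ f g
  · obtain ⟨l₁, l₂, h, h1, h2⟩ := hsp i
    rw [hw, hw, h, dwb_app, dwb_app, hself,
      dwb_zero D (β + Pi.single i 1) l₂ f fun v hv => by
        rw [hsame β i v (h2 v hv).ne', hβ v (h2 v hv)],
      dwb_zero D β l₂ (D i f) fun v hv => hβ v (h2 v hv),
      dwb_congr D (β + Pi.single i 1) β l₁ _ fun v hv => hsame β i v (h1 v hv).ne,
      Function.iterate_succ_apply]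
  · obtain ⟨l₁, l₂, h, h1, h2⟩ := hsp i
    rw [hw, hw, h, dwb_app, dwb_app, hself,
      dwb_zero D (β + Pi.single i 1) l₁ _ fun v hv => by
        rw [hsame β i v (h1 v hv).ne, hβ v (h1 v hv)],
      dwb_zero D β l₁ _ fun v hv => hβ v (h1 v hv),
      dwb_congr D (β + Pi.single i 1) β l₂ _ fun v hv => hsame β i v (h2 v hv).ne',
      Function.iterate_succ_apply']

end Pool.Agent.H97.TFX
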